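import Pool.Agent.Y933.KG.Cnt2

/-!
# Almost all real algebraic numbers of degree `d` are normal up to a multiple of `log H` digits

The real algebraic numbers `x` of degree `d ≥ 2` are ordered by their height `H` (the largest absolute
value of a coefficient of the minimal polynomial over the integers); there are about `H ^ (d + 1)` of
them. For given `A`, `B`, `w` and `ε > 0` there is `c > 0` such that for all of them, except for a
proportion `H ^ (-c)`, the following holds: every irrational element `y` of the number field `ℚ(x)`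
of the form `y = f(x) / m`, where `f` is an integral polynomial of degree `< d` and `m` and the
coefficients of `f` are at most `H ^ c` (for instance `y = x, x ^ 2, …, x ^ (d - 1)`), has, in every
base `b ≤ B`, all words of at most `w` digits with the right frequency in every window of its first
`A log H` digits, up to `ε log H`.

Proof. All coefficients but the constant one are fixed. The roots are then smooth functions of the
constant coefficient `c`, and so are the numbers `f(x)`: the derivative of order `K + 1` is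
`N(x) / P'(x) ^ (2 K + 1)` with a polynomial `N` of degree `deg f - 1 + K (d - 2)` whose leading
coefficient does not vanish, because the numbers `deg f - j d` do not vanish. So these derivatives are as large
as they should be outside of short intervals, and the test of van der Corput of high order bounds the
exponential sums over `x` with frequencies up to any power of `H`.
-/

set_option autoImplicit false

namespace Pool.Agent.Results.MP_f2f914_nt.AlmostAllAlgebraicNumbers

open Polynomial

/-- the real algebraic numbers of degree `d` and height at most `H`: the real roots of the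
irreducible integral polynomials of degree `d` with all coefficients at most `H` in absolute value -/
def AlgNumbers (d H : ℕ) : Set ℝ :=
  {x | ∃ P : ℤ[X], Irreducible P ∧ P.natDegree = d ∧ (∀ i, |P.coeff i| ≤ H) ∧ aeval x P = 0}

/-- the word of the `k` digits in base `b` of `y` which follow the first `n` digits after the point,
read as an integer between `0` and `b ^ k - 1` -/
noncomputable def word (b k n : ℕ) (y : ℝ) : ℕ :=
  ⌊(b : ℝ) ^ k * Int.fract ((b : ℝ) ^ n * y)⌋₊

/-- in every base `2 ≤ b ≤ B` the number of occurrences of every word of `k ≤ w` digits at the `N`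
places `s, …, s + N - 1` of `y`, for every window with `s + N ≤ L`, differs from `N / b ^ k` by at
most `E` -/
def NormalUpTo (B w : ℕ) (L E : ℝ) (y : ℝ) : Prop :=
  ∀ b k j s N : ℕ, 2 ≤ b → b ≤ B → 1 ≤ k → k ≤ w → j < b ^ k → (s : ℝ) + N ≤ L →
    |(({i : ℕ | i < N ∧ word b k (s + i) y = j}.ncard : ℕ) : ℝ) - N / (b : ℝ) ^ k| ≤ E

/-- Let `d ≥ 2`, `B`, `w`, `A` and `ε > 0` be given. There are `c > 0` and `H₀` such that for all
`H ≥ H₀`, for all real algebraic numbers `x` of degree `d` and height at most `H` except for a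
proportion of at most `H ^ (-c)` of them, every `y = f(x) / m`, where `f` is an integral polynomial
with `1 ≤ deg f < d` and `m` and the absolute values of the coefficients of `f` are at most `H ^ c`,
satisfies `NormalUpTo B w (A log H) (ε log H) y`. The number of real algebraic numbers of degree `d`
and height at most `H` is at least `H ^ (d + 1 - ε)`. -/
theorem result (d : ℕ) (hd : 2 ≤ d) (B w : ℕ) (A ε : ℝ) (hε : 0 < ε) :
    ∃ c : ℝ, 0 < c ∧ ∃ H₀ : ℕ, ∀ H : ℕ, H₀ ≤ H →
      (({x ∈ AlgNumbers d H | ¬ ∀ (f : ℤ[X]) (m : ℕ), 1 ≤ f.natDegree → f.natDegree < d →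
          (∀ i, |(f.coeff i : ℝ)| ≤ (H : ℝ) ^ c) → 1 ≤ m → (m : ℝ) ≤ (H : ℝ) ^ c →
          NormalUpTo B w (A * Real.log H) (ε * Real.log H) (aeval x f / m)}.ncard : ℕ) : ℝ) ≤
        (H : ℝ) ^ (-c) * ((AlgNumbers d H).ncard : ℝ) ∧
      (AlgNumbers d H).Finite ∧ (H : ℝ) ^ ((d : ℝ) + 1 - ε) ≤ ((AlgNumbers d H).ncard : ℝ) := by
  classical
  obtain ⟨q, rfl⟩ : ∃ q, d = q + 2 := ⟨d - 2, by omega⟩
  obtain ⟨c0, hc0, κ, hκ, H1, hH1⟩ := Pool.Agent.Y933.KG.elements q w A hε B
  obtain ⟨H2, hH2⟩ := Filter.eventually_atTop.1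
    ((Pool.Agent.Y933.KG.Alg_many q (c0 / 4) (by positivity)).and
      (Pool.Agent.Y933.KG.Alg_many q ε hε))
  obtain ⟨H3, hH3⟩ := Filter.eventually_atTop.1
    (Pool.Agent.Y933.KD.VdC.ev_le ((3 : ℝ) ^ (q + 3) * (q + 2)) (c0 / 4) (by positivity))
  refine ⟨min κ (c0 / 2), lt_min hκ (by positivity), max (max H1 H2) (max H3 1), fun H hH => ?_⟩
  have hHa : H1 ≤ H := le_of_max_le_left (le_of_max_le_left hH)
  have hHb : H2 ≤ H := le_of_max_le_right (le_of_max_le_left hH)
  have hHc : H3 ≤ H := le_of_max_le_left (le_of_max_le_right hH)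
  have hHd : 1 ≤ H := le_of_max_le_right (le_of_max_le_right hH)
  have hHR : (1 : ℝ) ≤ H := by exact_mod_cast hHd
  have hHp : (0 : ℝ) < H := by linarith
  have hfin : (AlgNumbers (q + 2) H).Finite := Pool.Agent.Y933.KG.Alg_finite q H
  refine ⟨?_, hfin, ?_⟩
  · set S := {x ∈ AlgNumbers (q + 2) H | ¬ ∀ (f : ℤ[X]) (m : ℕ), 1 ≤ f.natDegree →
      f.natDegree < q + 2 → (∀ i, |(f.coeff i : ℝ)| ≤ (H : ℝ) ^ (min κ (c0 / 2))) → 1 ≤ m →
      (m : ℝ) ≤ (H : ℝ) ^ (min κ (c0 / 2)) →
      NormalUpTo B w (A * Real.log H) (ε * Real.log H) (aeval x f / m)} with hS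
    set O := (Pool.Agent.Y933.KG.Om q H).filter (fun p => ¬ ∀ (f : ℤ[X]) (m : ℕ),
      1 ≤ f.natDegree → f.natDegree ≤ q + 1 →
        (∀ i, |(f.coeff i : ℝ)| ≤ (H : ℝ) ^ κ) → 1 ≤ m → (m : ℝ) ≤ (H : ℝ) ^ κ →
        ∀ b, 2 ≤ b → b ≤ B → Pool.Agent.Y933.KG.Nc b w (A * Real.log H) (ε * Real.log H)
          (aeval p.2.2 f / m)) with hO
    have hsub : S ⊆ ((O.image fun p => p.2.2 : Finset ℝ) : Set ℝ) := by
      rintro x ⟨hx, hbad⟩
      obtain ⟨p, hp, hpx⟩ := Pool.Agent.Y933.KG.Alg_sub q H hx
      rw [Finset.mem_coe, Finset.mem_image]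
      refine ⟨p, ?_, hpx⟩
      rw [hO, Finset.mem_filter]
      refine ⟨hp, fun hcon => hbad ?_⟩
      intro f m hf1 hf2 hf3 hm1 hm2 b k j s N hb hbB hk hkw hj hsN
      have hmono : (H : ℝ) ^ (min κ (c0 / 2)) ≤ (H : ℝ) ^ κ :=
        Real.rpow_le_rpow_of_exponent_le hHR (min_le_left _ _)
      have h1 := hcon f m hf1 (by omega) (fun i => (hf3 i).trans hmono) hm1 (hm2.trans hmono)
        b hb hbB k j s N hk hkw hj hsN
      rw [hpx] at h1
      have h2 : {i : ℕ | i < N ∧ word b k (s + i) (aeval x f / m) = j} =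
          (((Finset.range N).filter
            (fun i => Pool.Agent.Y933.KD.wd b k (s + i) (aeval x f / m) = j) : Finset ℕ) : Set ℕ) := by
        ext i
        simp only [Set.mem_ofPred_eq, Finset.coe_filter, Finset.mem_range]
        rfl
      rw [h2, Set.ncard_coe_finset]
      exact h1
    have h1 : (S.ncard : ℝ) ≤ (O.card : ℝ) := by
      have h2 : S.ncard ≤ (O.image fun p => p.2.2).card := by
        rw [← Set.ncard_coe_finset]
        exact Set.ncard_le_ncard hsub (Finset.finite_toSet _)
      exact_mod_cast h2.trans Finset.card_image_le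
    have h2 : (O.card : ℝ) ≤ (Pool.Agent.Y933.KG.Om q H).card * (H : ℝ) ^ (-c0) := hH1 H hHa
    have h3 := Pool.Agent.Y933.KG.card_Om_le q H hHd
    have h4 := (hH2 H hHb).1
    have h5 := hH3 H hHc
    have hAN : AlgNumbers (q + 2) H = Pool.Agent.Y933.KG.Alg (q + 2) H := rfl
    calc (S.ncard : ℝ) ≤ (Pool.Agent.Y933.KG.Om q H).card * (H : ℝ) ^ (-c0) := h1.trans h2
      _ ≤ (3 ^ (q + 3) * (q + 2) * (H : ℝ) ^ (q + 3)) * (H : ℝ) ^ (-c0) := by gcongr
      _ ≤ ((H : ℝ) ^ (c0 / 4) * (H : ℝ) ^ (q + 3)) * (H : ℝ) ^ (-c0) := by gcongr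
      _ = (H : ℝ) ^ (-(c0 / 2)) * (H : ℝ) ^ ((q : ℝ) + 3 - c0 / 4) := by
          rw [← Real.rpow_natCast (H : ℝ) (q + 3), ← Real.rpow_add hHp, ← Real.rpow_add hHp,
            ← Real.rpow_add hHp]
          congr 1
          push_cast
          ring
      _ ≤ (H : ℝ) ^ (-(c0 / 2)) * ((AlgNumbers (q + 2) H).ncard : ℝ) := by
          rw [hAN]
          gcongr
      _ ≤ (H : ℝ) ^ (-(min κ (c0 / 2))) * ((AlgNumbers (q + 2) H).ncard : ℝ) := by
          refine mul_le_mul_of_nonneg_right ?_ (Nat.cast_nonneg _)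
          apply Real.rpow_le_rpow_of_exponent_le hHR
          linarith [min_le_right κ (c0 / 2)]
  · have h4 := (hH2 H hHb).2
    have e1 : ((q + 2 : ℕ) : ℝ) + 1 - ε = (q : ℝ) + 3 - ε := by push_cast; ring
    rw [e1]
    exact h4

end Pool.Agent.Results.MP_f2f914_nt.AlmostAllAlgebraicNumbers
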