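import Pool.Agent.Y933.KD.Mult

/-!
# Digit tests for the integral multiples of an irrational algebraic number

Let `ω 1, …, ω d` be real numbers one of which is algebraic and irrational (for instance `d = 1` and
`ω 1 = √2`). The digits of the numbers `m 1 * ω 1 + … + m d * ω d + y`, `1 ≤ m j ≤ M`, at any `k`
places `n ≤ A log M` and in any bases `b ≤ B`, are jointly distributed like those of a random real
number, with an error `O (M ^ (-δ))`.
-/

set_option autoImplicit false

open MeasureTheory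

/-- Let `ω j`, `j < d`, be real numbers one of which is algebraic and irrational, and let `B`, `k` and
`A` be given. There are `δ > 0` and `C` such that for all `M ≥ 1`, all real `y`, all bases
`b i ≤ B` and places `n i ≤ A log M`, and all intervals `[u i, v i)` in `[0, 1]`, `i < k`: the
proportion of the `m` in `{1, …, M} ^ d` for which, for all `i < k`, the fractional part of
`b i ^ n i * (∑ j, m j * ω j + y)` lies in `[u i, v i)`, differs from the Lebesgue measure of the set
of the `t` in `[0, 1)` for which the fractional part of `b i ^ n i * t` lies in `[u i, v i)` for all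
`i < k` by at most `C * M ^ (-δ)`. -/
theorem Pool.Agent.Results.MP_f2f914_nt.DigitTestsOfMultiples.result (d : ℕ) (ω : Fin d → ℝ)
    (hω : ∃ j, IsAlgebraic ℚ (ω j) ∧ Irrational (ω j)) (B k : ℕ) (A : ℝ) :
    ∃ δ : ℝ, 0 < δ ∧ ∃ C : ℝ, ∀ M : ℕ, 1 ≤ M → ∀ y : ℝ, ∀ b n : Fin k → ℕ,
      (∀ i, 1 ≤ b i ∧ b i ≤ B) → (∀ i, (n i : ℝ) ≤ A * Real.log M) → ∀ u v : Fin k → ℝ,
      (∀ i, 0 ≤ u i) → (∀ i, v i ≤ 1) →
      |(((Fintype.piFinset fun _ : Fin d => Finset.Icc 1 M).filter (fun m : Fin d → ℕ =>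
          ∀ i, Int.fract ((b i : ℝ) ^ n i * (∑ j, m j * ω j + y)) ∈ Set.Ico (u i) (v i))).card : ℝ)
          / (M : ℝ) ^ d -
        (volume {t : ℝ | t ∈ Set.Ico (0 : ℝ) 1 ∧
          ∀ i, Int.fract ((b i : ℝ) ^ n i * t) ∈ Set.Ico (u i) (v i)}).toReal| ≤
        C * (M : ℝ) ^ (-δ) := by
  obtain ⟨j0, halg, hirr⟩ := hω
  obtain ⟨δ, hδ, C, hC⟩ := Pool.Agent.Y933.KD.tests_mult ω j0 halg hirr B k A
  refine ⟨δ, hδ, C, fun M hM y b n hb hn u v hu hv => ?_⟩
  have key := hC M hM y b n hb hn u v hu hv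
  have h1 : (Pool.Agent.Y933.KD.unif (Pool.Agent.Y933.KD.box d M)
      (Pool.Agent.Y933.KD.comb ω y)).real (Pool.Agent.Y933.KD.Ev b n u v) =
      (((Fintype.piFinset fun _ : Fin d => Finset.Icc 1 M).filter (fun m : Fin d → ℕ =>
        ∀ i, Int.fract ((b i : ℝ) ^ n i * (∑ j, m j * ω j + y)) ∈
          Set.Ico (u i) (v i))).card : ℝ) / (M : ℝ) ^ d := by
    classical
    rw [Pool.Agent.Y933.KD.real_unif _ _ (Pool.Agent.Y933.KD.measurableSet_Ev b n u v),
      Pool.Agent.Y933.KD.card_box]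
    push_cast
    congr 2
    apply congrArg Finset.card
    ext m
    simp only [Finset.mem_filter]
    rfl
  have h2 : Pool.Agent.Y933.KD.Leb.real (Pool.Agent.Y933.KD.Ev b n u v) =
      (volume {t : ℝ | t ∈ Set.Ico (0 : ℝ) 1 ∧
          ∀ i, Int.fract ((b i : ℝ) ^ n i * t) ∈ Set.Ico (u i) (v i)}).toReal := by
    unfold Measure.real Pool.Agent.Y933.KD.Leb
    rw [Measure.restrict_apply (Pool.Agent.Y933.KD.measurableSet_Ev b n u v)]
    congr 2
    ext t
    constructor
    · rintro ⟨h3, h4⟩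
      exact ⟨h4, h3⟩
    · rintro ⟨h3, h4⟩
      exact ⟨h4, h3⟩
  rw [h1, h2] at key
  exact key
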