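import Pool.Agent.Y933.KD.Clt2

/-!
# The central limit theorem for the digits of multiples and of roots

Let `x M m` be `m * ξ + y M` with an algebraic irrational number `ξ`, or `ω M * m ^ θ + y M` with
`θ > 0` not an integer (for instance `θ = 1 / 2`: square roots). For `m` random in an interval
`(L M, L M + M]`, the sum of any function `F` of the words of `w` digits in base `b` over the places
`n M, …, n M + N M - 1` of `x M m` is asymptotically normal, with the mean and the variance of a
random real number, as soon as `N M → ∞` and `n M + N M ≤ A log M` for some constant `A`.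
-/

set_option autoImplicit false

open Filter Topology

namespace Pool.Agent.Results.MP_f2f914_nt.GaussianWordCounts

/-- the word of the `w` digits in base `b` of `x` which follow the first `n` digits after the point,
read as an integer between `0` and `b ^ w - 1` -/
noncomputable def word (b w n : ℕ) (x : ℝ) : ℕ :=
  ⌊(b : ℝ) ^ w * Int.fract ((b : ℝ) ^ n * x)⌋₊

/-- the mean of `F` over the words of `w` digits -/
noncomputable def mean (b w : ℕ) (F : ℕ → ℝ) : ℝ :=
  (∑ c ∈ Finset.range (b ^ w), F c) / (b : ℝ) ^ w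

/-- the covariance of the values of `F` at the two words of `w` digits at the beginning and at the
end of a random word `c` of `w + h` digits -/
noncomputable def covariance (b w : ℕ) (F : ℕ → ℝ) (h : ℕ) : ℝ :=
  (∑ c ∈ Finset.range (b ^ (w + h)), (F (c / b ^ h) - mean b w F) * (F (c % b ^ w) - mean b w F)) /
    (b : ℝ) ^ (w + h)

/-- the asymptotic variance of the word sums -/
noncomputable def variance (b w : ℕ) (F : ℕ → ℝ) : ℝ :=
  covariance b w F 0 + 2 * ∑ h ∈ Finset.Ico 1 w, covariance b w F h

/-- the families of numbers: multiples of an algebraic irrational number, with arbitrary shifts, or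
powers `m ^ θ`, `θ > 0` not an integer, with factors `ω M` between `1` and a power of `M` and
arbitrary shifts; in the second case the left end `L M` of the interval `(L M, L M + M]` satisfies
`L M ^ (1 / 2 + ε) ≤ M` and `L M ^ (1 - θ + ε) ≤ M` -/
def Admissible (L : ℕ → ℕ) (x : ℕ → ℕ → ℝ) : Prop :=
  (∃ (ξ : ℝ) (y : ℕ → ℝ), IsAlgebraic ℚ ξ ∧ Irrational ξ ∧ ∀ M m : ℕ, x M m = m * ξ + y M) ∨
  ∃ (θ ε W : ℝ) (ω y : ℕ → ℝ), 0 < θ ∧ (∀ r : ℕ, θ ≠ r) ∧ 0 < ε ∧
    (∀ M : ℕ, 1 ≤ M → (L M : ℝ) ^ (1 / 2 + ε) ≤ M ∧ (L M : ℝ) ^ (1 - θ + ε) ≤ M ∧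
      1 ≤ |ω M| ∧ |ω M| ≤ (M : ℝ) ^ W) ∧ ∀ M m : ℕ, x M m = ω M * (m : ℝ) ^ θ + y M

/-- Let `x` be an admissible sequence of families over the intervals `(L M, L M + M]`, and `F` a
function of the words of `w` digits in base `b` whose asymptotic variance is positive. If
`N M → ∞` and `n M + N M ≤ A log M` for large `M`, then the proportion of the `m` in
`(L M, L M + M]` for which the sum of `F` over the words at the places `n M + i`, `i < N M`, of
`x M m` is at most `N M * mean + a * √(variance * N M)` tends, for every real `a`, to the value at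
`a` of the distribution function of the standard normal distribution. -/
theorem result (b w : ℕ) (hb : 2 ≤ b) (hw : 1 ≤ w) (F : ℕ → ℝ) (hF : 0 < variance b w F)
    (L : ℕ → ℕ) (x : ℕ → ℕ → ℝ) (hx : Admissible L x) (A : ℝ) (n N : ℕ → ℕ)
    (hN : Tendsto N atTop atTop)
    (hnN : ∀ᶠ M : ℕ in atTop, (n M : ℝ) + N M ≤ A * Real.log M) (a : ℝ) :
    Tendsto (fun M : ℕ => (((Finset.Ioc (L M) (L M + M)).filter (fun m =>
      ∑ i ∈ Finset.range (N M), F (word b w (n M + i) (x M m)) - N M * mean b w F ≤
        a * √(variance b w F * N M))).card : ℝ) / M) atTop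
      (𝓝 ((ProbabilityTheory.gaussianReal 0 1).real (Set.Iic a))) := by
  rcases hx with ⟨ξ, y, halg, hirr, hx⟩ | ⟨θ, ε, W, ω, y, hθ, hθ', hε, hL, hx⟩
  · obtain rfl : x = fun M m : ℕ => (m : ℝ) * ξ + y M := by
      ext M m; exact hx M m
    exact Pool.Agent.Y933.KD.clt_mult (by omega) hw F hF L ξ halg hirr y n N hN hnN a
  · obtain rfl : x = fun M m : ℕ => ω M * (m : ℝ) ^ θ + y M := by
      ext M m; exact hx M m
    exact Pool.Agent.Y933.KD.clt_root (by omega) hw F hF L hθ hθ' hε ω y hL n N hN hnN a

end Pool.Agent.Results.MP_f2f914_nt.GaussianWordCounts
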