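import Mathlib
import Pool.Agent.Y951.SW.Alg
import Pool.Agent.Y951.SW.Mult

/-!
Words in the expansions of almost all multiples `a q ^ n x` and `y + m x` of a real algebraic
irrational number `x`.
-/

set_option autoImplicit false

open Finset Filter

namespace Pool.Agent.Results.MP_f2f914_nt.WordsInMultiples

/-- the number of places `i < n` such that the `k` digits of `y` in base `b` after the `i`-th one are
`w 0, …, w (k - 1)` (the `j`-th digit of `y` is `⌊y b ^ j⌋ mod b`) -/
noncomputable def count (b k : ℕ) (w : Fin k → Fin b) (y : ℝ) (n : ℕ) : ℕ :=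
  {i : ℕ | i < n ∧ ∀ s : Fin k, ⌊y * (b : ℝ) ^ (i + s + 1)⌋ % (b : ℤ) = ((w s : ℕ) : ℤ)}.ncard

lemma count_eq (b k : ℕ) (w : Fin k → Fin b) (y : ℝ) (n : ℕ) :
    count b k w y n = Pool.Agent.W226.MP.occ b k w y 0 n := by
  classical
  unfold count Pool.Agent.W226.MP.occ Pool.Agent.W226.MP.OccursAt Pool.Agent.W226.MP.digit
  rw [← Set.ncard_coe_finset]
  congr 1
  ext i
  simp only [Set.mem_ofPred_eq, Finset.coe_filter, Finset.mem_range, zero_add]

/-- Let `x` be a real algebraic irrational number, `b ≥ 2` and `k ≥ 1`.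

(1) Let `q ≥ 2`, where `b` and `q` are coprime or `b = q v` with `v ≥ 2` coprime to `q`, let
`C, ε, δ > 0` and let `R` be arbitrary. If `M` is large, then for all `J` and all `a ≥ 1` and for all
but at most `δ M` of the numbers `n` with `J ≤ n < J + M` the following holds: for every
`u ≤ R (J + M)` every word of `k` digits in base `b` stands at least `M ^ (1 - ε)` times in the
window of the digits of `a q ^ n x` between the `u`-th digit and the place
`u + C (u + n log_b q) + (1 + C / 2) log_b a`. The word with value `W` (its digits are those of `W`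
in base `b`, with leading zeros) stands in `y` right after the `i`-th digit if and only if
`⌊b ^ (i + k) y⌋ mod b ^ k = W`.

(2) For every `A > 0` there are `c, C > 0` such that for all real `y`, all `M ≥ 2` and all `n`, and
for all but at most `C M ^ (1 - c)` of the `m < M`, every block of `k` digits in base `b` occurs at
least `A (log M) log (n / (C log M))` times at the first `n` places of `y + m x`. -/
theorem result (x : ℝ) (halg : IsAlgebraic ℚ x) (hirr : Irrational x) (b k : ℕ) (hb : 2 ≤ b)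
    (hk : 1 ≤ k) :
    (∀ q : ℕ, 2 ≤ q → (Nat.Coprime b q ∨ ∃ v : ℕ, 2 ≤ v ∧ Nat.Coprime q v ∧ b = q * v) →
      ∀ (R : ℕ) (C ε δ : ℝ), 0 < C → 0 < ε → 0 < δ → ∃ M₀ : ℕ, ∀ M J a : ℕ, M₀ ≤ M → 1 ≤ a →
        (({n : ℕ | J ≤ n ∧ n < J + M ∧ ¬ ∀ u : ℕ, u ≤ R * (J + M) → ∀ W : ℕ, W < b ^ k →
          (M : ℝ) ^ (1 - ε) ≤ (({i : ℕ | u ≤ i ∧
            (i : ℝ) + k ≤ u + C * (u + n * (Real.log q / Real.log b)) +
              (1 + C / 2) * (Real.log a / Real.log b) ∧
            ⌊(b : ℝ) ^ (i + k) * (a * (q : ℝ) ^ n * x)⌋ % ((b : ℤ) ^ k) =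
              (W : ℤ)}.ncard : ℕ) : ℝ)}.ncard : ℕ) : ℝ) ≤ δ * M) ∧
    (∀ A : ℝ, 0 < A → ∃ c C : ℝ, 0 < c ∧ 0 < C ∧ ∀ (y : ℝ) (M n : ℕ), 2 ≤ M →
      (({m : ℕ | m < M ∧ ¬ ∀ w : Fin k → Fin b,
        A * Real.log M * Real.log (n / (C * Real.log M)) ≤
          (count b k w (y + m * x) n : ℝ)}.ncard : ℕ) : ℝ) ≤ C * (M : ℝ) ^ (1 - c)) := by
  classical
  refine ⟨fun q hq hbq R C ε δ hC hε hδ => ?_, fun A hA => ?_⟩
  · obtain ⟨M₀, hM₀⟩ := Pool.Agent.Y951.SW.words_alg halg hirr b q hb hq hbq k R C ε δ hC hε hδ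
    refine ⟨M₀, fun M J a hM ha => ?_⟩
    refine le_trans (Nat.cast_le.2 ?_) (hM₀ M J a hM ha)
    refine le_trans (Set.ncard_le_ncard ?_ ((Finset.finite_toSet _).image (fun t => J + t)))
      ((Set.ncard_image_le (Finset.finite_toSet _)).trans (Set.ncard_coe_finset _).le)
    rintro n ⟨h1, h2, h3⟩
    refine ⟨n - J, ?_, by simp only; omega⟩
    rw [Finset.mem_coe, Finset.mem_filter, Finset.mem_range]
    refine ⟨by omega, fun h4 => h3 fun u hu W hW => ?_⟩
    have h5 := h4 u hu W hW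
    have e1 : J + (n - J) = n := by omega
    rw [e1] at h5
    rw [← mul_div_assoc]
    exact h5
  · obtain ⟨c, C, hc, hC, h⟩ := Pool.Agent.Y951.SW.mult_alg x halg hirr b k hb hk A hA
    refine ⟨c, C, hc, hC, fun y M n hM => ?_⟩
    refine le_trans (Nat.cast_le.2 ?_) (h y M n hM)
    rw [← Set.ncard_coe_finset]
    refine Set.ncard_le_ncard ?_ (Finset.finite_toSet _)
    rintro m ⟨hm, h2⟩
    push Not at h2
    obtain ⟨w, hw⟩ := h2
    rw [count_eq] at hw
    rw [Finset.mem_coe, Finset.mem_filter, Finset.mem_range]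
    exact ⟨hm, w, hw⟩

end Pool.Agent.Results.MP_f2f914_nt.WordsInMultiples
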